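import Pool.Agent.K3h8.SF.Stm

/-!
# Bricks XI2 and GAM: exchange of neighbouring blocks, rotations
-/

set_option autoImplicit false
set_option linter.unusedSectionVars false
set_option linter.unusedSimpArgs false

open CategoryTheory Limits MonoidalCategory
open Pool.Agent.Y112.SR Pool.Agent.Y112.KD Pool.Agent.R905 Pool.Agent.K3h8.KS
open Pool.Agent.Y116.MT (tr)
open Pool.Agent.K3h8.SF

namespace Pool.Agent.K3h94.SF

universe v u w

section

variable {C : Type u} [Category.{v} C] [MonoidalCategory C]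

lemma step_aux (Q X T T' : C) (k : X ⊗ T ⟶ T') (k' : T' ⟶ X ⊗ T)
    (s : Q ⊗ X ⟶ Q ⊗ X) :
    (Q ◁ (k' ▷ X ≫ (α_ X T X).hom)) ≫ (α_ Q X (T ⊗ X)).inv ≫ (s ▷ (T ⊗ X)) ≫
      (α_ Q X (T ⊗ X)).hom ≫ (Q ◁ ((α_ X T X).inv ≫ k ▷ X)) =
    (α_ Q T' X).inv ≫ ((Q ◁ k' ≫ (α_ Q X T).inv ≫ s ▷ T ≫ (α_ Q X T).hom ≫ Q ◁ k) ▷ X) ≫
      (α_ Q T' X).hom := by
  monoidal

lemma base_aux (Q X : C) (s : Q ⊗ X ⟶ Q ⊗ X) :
    (((ρ_ Q).inv ▷ X) ≫ (α_ Q (𝟙_ C) X).hom) ≫
    ((Q ◁ ((λ_ X).hom ≫ (ρ_ X).inv)) ≫ (α_ Q X (𝟙_ C)).inv ≫ (s ▷ 𝟙_ C) ≫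
      (α_ Q X (𝟙_ C)).hom ≫ (Q ◁ ((ρ_ X).hom ≫ (λ_ X).inv))) ≫
    ((α_ Q (𝟙_ C) X).inv ≫ ((ρ_ Q).hom ▷ X)) = s := by
  monoidal

end

section

variable (C : Type u) [Category.{v} C] [MonoidalCategory C] [SymmetricCategory C]

lemma bd_succ (X : C) (m : ℕ) (P : C) :
    bd X (m + 1) P = (α_ (P ⊗ X) (tp X (m + 1)) X).inv ≫ (bd X m P ▷ X) ≫
      (α_ (P ⊗ X) (tp X (m + 1)) X).hom :=
  step_aux (P ⊗ X) X (tp X m) (tp X (m + 1)) (kap X m).hom (kap X m).inv (sw P X)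

/-- brick XI2 -/
theorem t_XI2 : XI2 C := by
  intro X s b m
  induction m with
  | zero =>
    have h : (cat X (b + 1) (0 + 1)).inv ≫ bd X 0 (tp X b) ≫ (cat X (b + 1) (0 + 1)).hom =
        sw (tp X b) X := base_aux (tp X b ⊗ X) X (sw (tp X b) X)
    rw [h]
    exact Gen.last b
  | succ m ih =>
    have h : (cat X (b + 1) (m + 1 + 1)).inv ≫ bd X (m + 1) (tp X b) ≫
        (cat X (b + 1) (m + 1 + 1)).hom =
        ((cat X (b + 1) (m + 1)).inv ≫ bd X m (tp X b) ≫ (cat X (b + 1) (m + 1)).hom) ▷ X := by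
      rw [bd_succ]
      change ((cat X (b + 1) (m + 1)).inv ▷ X ≫ (α_ (tp X (b + 1)) (tp X (m + 1)) X).hom) ≫
        ((α_ (tp X b ⊗ X) (tp X (m + 1)) X).inv ≫ (bd X m (tp X b) ▷ X) ≫
          (α_ (tp X b ⊗ X) (tp X (m + 1)) X).hom) ≫
        ((α_ (tp X (b + 1)) (tp X (m + 1)) X).inv ≫ (cat X (b + 1) (m + 1)).hom ▷ X) = _
      simp only [Category.assoc, Iso.hom_inv_id_assoc, comp_whiskerRight]
    rw [h]
    exact Gen.lift _ _ ih

lemma gam_zero (X : C) : gam X 0 = 𝟙 _ := by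
  unfold gam
  change ((λ_ X).hom ≫ (ρ_ X).inv) ≫ (β_ X (𝟙_ C)).hom = _
  rw [braiding_tensorUnit_right]
  simp

lemma gam_succ (X : C) (m : ℕ) : gam X (m + 1) = (gam X m ▷ X) ≫ sw (tp X m) X := by
  unfold gam
  change ((kap X m).inv ▷ X ≫ (α_ X (tp X m) X).hom) ≫ (β_ X (tp X m ⊗ X)).hom = _
  rw [BraidedCategory.braiding_tensor_right_hom]
  simp [sw]

lemma gam'_zero (X : C) : gam' X 0 = 𝟙 _ := by
  unfold gam'
  change (β_ X (𝟙_ C)).inv ≫ ((ρ_ X).hom ≫ (λ_ X).inv) = _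
  rw [Iso.inv_comp_eq, braiding_tensorUnit_right]
  simp

lemma gam'_succ (X : C) (m : ℕ) : gam' X (m + 1) = sw (tp X m) X ≫ (gam' X m ▷ X) := by
  have h1 : gam X (m + 1) ≫ gam' X (m + 1) = 𝟙 _ := by
    unfold gam gam'
    simp
  have h2 : gam' X (m + 1) ≫ gam X (m + 1) = 𝟙 _ := by
    unfold gam gam'
    simp
  have h3 : gam X m ≫ gam' X m = 𝟙 _ := by
    unfold gam gam'
    simp
  have h4 : gam X (m + 1) ≫ sw (tp X m) X ≫ (gam' X m ▷ X) = 𝟙 _ := by
    rw [gam_succ, Category.assoc, ← Category.assoc (sw (tp X m) X), sw_sw, Category.id_comp,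
      ← comp_whiskerRight, h3, id_whiskerRight]
  calc gam' X (m + 1) = gam' X (m + 1) ≫ (gam X (m + 1) ≫ sw (tp X m) X ≫ (gam' X m ▷ X)) := by
        rw [h4, Category.comp_id]
    _ = sw (tp X m) X ≫ (gam' X m ▷ X) := by
        rw [← Category.assoc, h2, Category.id_comp]

variable [Preadditive C] [Linear ℚ C] [MonoidalPreadditive C] [MonoidalLinear ℚ C]

variable {C}

lemma nat_whisker {X : C} {s : X ⟶ X} {n : ℕ} {x : End (tp X n)} (hx : x ∈ Nat' s n) :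
    en (X := tp X (n + 1)) ((x : tp X n ⟶ tp X n) ▷ X) ∈ Nat' s (n + 1) := by
  unfold Nat' at hx
  induction hx using Algebra.adjoin_induction with
  | mem g hg => exact Algebra.subset_adjoin (Gen.lift _ _ hg)
  | algebraMap q =>
    have h1 : en (X := tp X (n + 1))
        (((algebraMap ℚ (End (tp X n)) q : End (tp X n)) : tp X n ⟶ tp X n) ▷ X) =
        algebraMap ℚ (End (tp X (n + 1))) q := by
      rw [Algebra.algebraMap_eq_smul_one, Algebra.algebraMap_eq_smul_one]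
      have h2 : (q • 𝟙 (tp X n)) ▷ X = q • ((𝟙 (tp X n)) ▷ X) :=
        MonoidalLinear.smul_whiskerRight _ _ _
      rw [id_whiskerRight] at h2
      exact h2
    rw [h1]
    exact Subalgebra.algebraMap_mem _ _
  | add x y _ _ hx hy =>
    have h1 : en (X := tp X (n + 1)) (((x + y : End (tp X n)) : tp X n ⟶ tp X n) ▷ X) =
        en (X := tp X (n + 1)) ((x : tp X n ⟶ tp X n) ▷ X) +
          en (X := tp X (n + 1)) ((y : tp X n ⟶ tp X n) ▷ X) := by
      have h2 : ((x : tp X n ⟶ tp X n) + (y : tp X n ⟶ tp X n)) ▷ X =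
        (x : tp X n ⟶ tp X n) ▷ X + (y : tp X n ⟶ tp X n) ▷ X := by
        rw [MonoidalPreadditive.add_whiskerRight]
      exact h2
    rw [h1]
    exact Subalgebra.add_mem _ hx hy
  | mul x y _ _ hx hy =>
    have h1 : en (X := tp X (n + 1)) (((x * y : End (tp X n)) : tp X n ⟶ tp X n) ▷ X) =
        en (X := tp X (n + 1)) ((x : tp X n ⟶ tp X n) ▷ X) *
          en (X := tp X (n + 1)) ((y : tp X n ⟶ tp X n) ▷ X) := by
      rw [End.mul_def, End.mul_def]
      exact comp_whiskerRight _ _ _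
    rw [h1]
    exact Subalgebra.mul_mem _ hx hy

variable (C)

/-- brick GAM -/
theorem t_GAM : GAM C := by
  intro X s m
  have hsw : ∀ m : ℕ, en (sw (tp X m) X) ∈ Nat' s (m + 2) := fun m =>
    Algebra.subset_adjoin (Gen.last m)
  have h1 : ∀ m : ℕ, en (gam X m) ∈ Nat' s (m + 1) := by
    intro m
    induction m with
    | zero =>
      have h0 : en (gam X 0) = (1 : End (tp X (0 + 1))) := gam_zero C X
      rw [h0]
      exact one_mem _
    | succ m ih =>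
      have h1 : en (gam X (m + 1)) =
          en (sw (tp X m) X) * en (X := tp X (m + 2)) (gam X m ▷ X) := by
        rw [End.mul_def]
        exact gam_succ C X m
      rw [h1]
      exact mul_mem (hsw m) (nat_whisker ih)
  have h2 : ∀ m : ℕ, en (gam' X m) ∈ Nat' s (m + 1) := by
    intro m
    induction m with
    | zero =>
      have h0 : en (gam' X 0) = (1 : End (tp X (0 + 1))) := gam'_zero C X
      rw [h0]
      exact one_mem _
    | succ m ih =>
      have h1 : en (gam' X (m + 1)) =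
          en (X := tp X (m + 2)) (gam' X m ▷ X) * en (sw (tp X m) X) := by
        rw [End.mul_def]
        exact gam'_succ C X m
      rw [h1]
      exact mul_mem (nat_whisker ih) (hsw m)
  exact ⟨h1 m, h2 m⟩

end

end Pool.Agent.K3h94.SF
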